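import Pool.Agent.H180.OneCoord

set_option autoImplicit false

/-!
# MP_975af5_gt: constant maps in `C_k(ω*, ω*)` from different orbits

For points `x`, `y` of `ω*` the constant maps `f_x` and `f_y` lie in the same orbit of the space
`C_k(ω*, ω*)` if and only if `x` and `y` lie in the same orbit of `ω*`.
-/

namespace Pool.Agent.Results.MP_975af5_gt.ConstantOrbits

open Set Filter Topology Pool.Agent.H180.OneCoord

/-- `ω*`: the space of the nonprincipal ultrafilters on `ℕ`, as a subspace of the space `βω` of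
all ultrafilters on `ℕ`. -/
abbrev OmegaStar : Type := {u : Ultrafilter ℕ // ∀ n : ℕ, u ≠ pure n}

/-! ### The space `ω*` -/

/-- The basic clopen subset of `ω*` given by a subset of `ℕ`. -/
def star (S : Set ℕ) : Set OmegaStar := {u | S ∈ u.1}

theorem isOpen_star (S : Set ℕ) : IsOpen (star S) :=
  (ultrafilter_isOpen_basic S).preimage continuous_subtype_val

theorem isClosed_star (S : Set ℕ) : IsClosed (star S) :=
  (ultrafilter_isClosed_basic S).preimage continuous_subtype_val

theorem isClosed_range : IsClosed {u : Ultrafilter ℕ | ∀ n : ℕ, u ≠ pure n} := by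
  have h1 : {u : Ultrafilter ℕ | ∀ n : ℕ, u ≠ pure n} = ⋂ n : ℕ, {u | {n} ∈ u}ᶜ := by
    ext u
    simp only [mem_ofPred_eq, mem_iInter, mem_compl_iff]
    refine forall_congr' fun n => not_congr ?_
    constructor
    · rintro rfl
      exact Ultrafilter.mem_pure.2 rfl
    · intro h
      exact (Ultrafilter.eq_pure_of_finite_mem (finite_singleton n) h).elim
        fun m hm => by
          obtain ⟨h2, h3⟩ := hm
          rw [h3, mem_singleton_iff.1 h2]
  rw [h1]
  exact isClosed_iInter fun n => (ultrafilter_isOpen_basic {n}).isClosed_compl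

instance : CompactSpace OmegaStar :=
  isCompact_iff_compactSpace.1 isClosed_range.isCompact

theorem basis_star : TopologicalSpace.IsTopologicalBasis (range star) := by
  have h := (ultrafilterBasis_is_basis (α := ℕ)).isInducing
    (f := (Subtype.val : OmegaStar → Ultrafilter ℕ)) IsInducing.subtypeVal
  convert h using 1
  ext U
  constructor
  · rintro ⟨S, rfl⟩
    exact ⟨_, ⟨S, rfl⟩, rfl⟩
  · rintro ⟨_, ⟨S, rfl⟩, rfl⟩
    exact ⟨S, rfl⟩

theorem infinite_of_mem {S : Set ℕ} {z : OmegaStar} (h : z ∈ star S) : S.Infinite := by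
  intro hf
  obtain ⟨m, -, hm⟩ := Ultrafilter.eq_pure_of_finite_mem hf h
  exact z.2 m hm

theorem nonempty_star {S : Set ℕ} (h : S.Infinite) : (star S).Nonempty := by
  have h1 : NeBot (cofinite ⊓ 𝓟 S) := by
    rw [← frequently_mem_iff_neBot]
    exact frequently_cofinite_iff_infinite.2 h
  let u : Ultrafilter ℕ := Ultrafilter.of (cofinite ⊓ 𝓟 S)
  have hu : (u : Filter ℕ) ≤ cofinite ⊓ 𝓟 S := Ultrafilter.of_le _
  refine ⟨⟨u, fun n hn => ?_⟩, ?_⟩
  · have h2 : ({n}ᶜ : Set ℕ) ∈ u := hu (mem_inf_of_left (finite_singleton n).compl_mem_cofinite)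
    rw [hn] at h2
    exact (Ultrafilter.mem_pure.1 h2) rfl
  · exact hu (mem_inf_of_right (mem_principal_self S))

/-- Open closed sets are basic. -/
theorem exists_star_eq {V : Set OmegaStar} (h1 : IsOpen V) (h2 : IsClosed V) :
    ∃ S, V = star S := by
  obtain ⟨s, hs, rfl⟩ := eq_finite_iUnion_of_isTopologicalBasis_of_isCompact_open star basis_star V
    h2.isCompact h1
  refine ⟨⋃ i ∈ s, i, ?_⟩
  ext z
  simp only [mem_iUnion, exists_prop]
  exact (Ultrafilter.finite_biUnion_mem_iff (f := z.1) (s := fun i : Set ℕ => i) hs).symm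

/-! ### Local homeomorphisms extend -/

theorem continuous_map (σ : ℕ → ℕ) : Continuous (fun u : Ultrafilter ℕ => u.map σ) := by
  rw [(ultrafilterBasis_is_basis (α := ℕ)).continuous_iff]
  rintro _ ⟨s, rfl⟩
  exact ultrafilter_isOpen_basic (σ ⁻¹' s)

/-- A map that is given by a continuous map on `star A` and by a map of `ℕ` outside. -/
noncomputable def glue (φ : OmegaStar → OmegaStar) (A : Set ℕ) (σ : ℕ → ℕ) (hσ : InjOn σ Aᶜ) :
    OmegaStar → OmegaStar := by
  classical exact fun z => if h : A ∈ z.1 then φ z else ⟨z.1.map σ, fun n hn => by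
    have h1 : Aᶜ ∈ z.1 := Ultrafilter.compl_mem_iff_notMem.2 h
    have h2 : σ ⁻¹' {n} ∈ z.1 := by
      have h3 : {n} ∈ z.1.map σ := by
        rw [hn]
        exact Ultrafilter.mem_pure.2 rfl
      exact h3
    have h4 : (σ ⁻¹' {n} ∩ Aᶜ).Finite := by
      refine Set.Subsingleton.finite ?_
      rintro a ⟨ha, ha'⟩ b ⟨hb, hb'⟩
      exact hσ ha' hb' ((show σ a = n from ha).trans (show σ b = n from hb).symm)
    obtain ⟨m, -, hm⟩ := Ultrafilter.eq_pure_of_finite_mem h4 (Filter.inter_mem h2 h1)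
    exact z.2 m hm⟩

theorem glue_of_mem {φ : OmegaStar → OmegaStar} {A : Set ℕ} {σ : ℕ → ℕ} {hσ : InjOn σ Aᶜ}
    {z : OmegaStar} (h : A ∈ z.1) : glue φ A σ hσ z = φ z := dif_pos h

theorem glue_of_notMem {φ : OmegaStar → OmegaStar} {A : Set ℕ} {σ : ℕ → ℕ} {hσ : InjOn σ Aᶜ}
    {z : OmegaStar} (h : A ∉ z.1) : (glue φ A σ hσ z).1 = z.1.map σ := by
  unfold glue
  rw [dif_neg h]

theorem continuous_glue {φ : OmegaStar → OmegaStar} (hφ : Continuous φ) (A : Set ℕ) (σ : ℕ → ℕ)
    (hσ : InjOn σ Aᶜ) : Continuous (glue φ A σ hσ) := by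
  rw [continuous_iff_continuousAt]
  intro z
  by_cases h : A ∈ z.1
  · refine hφ.continuousAt.congr ?_
    filter_upwards [(isOpen_star A).mem_nhds h] with w hw
    exact (glue_of_mem hw).symm
  · have h1 : ContinuousAt (fun w => (glue φ A σ hσ w).1) z := by
      refine ((continuous_map σ).comp continuous_subtype_val).continuousAt.congr ?_
      filter_upwards [(isClosed_star A).isOpen_compl.mem_nhds h] with w hw
      exact (glue_of_notMem hw).symm
    exact IsInducing.subtypeVal.continuousAt_iff.2 h1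

theorem exists_equiv_on {A B : Set ℕ} (hA : A.Infinite) (hB : B.Infinite) :
    ∃ σ τ : ℕ → ℕ, (∀ n ∈ A, σ n ∈ B ∧ τ (σ n) = n) ∧ ∀ n ∈ B, τ n ∈ A ∧ σ (τ n) = n := by
  classical
  have : Infinite A := hA.to_subtype
  have : Infinite B := hB.to_subtype
  obtain ⟨e⟩ : Nonempty (A ≃ B) := by
    obtain ⟨e1⟩ := nonempty_denumerable A
    obtain ⟨e2⟩ := nonempty_denumerable B
    exact ⟨(Denumerable.eqv A).trans (Denumerable.eqv B).symm⟩
  refine ⟨fun n => if h : n ∈ A then e ⟨n, h⟩ else 0, fun n => if h : n ∈ B then e.symm ⟨n, h⟩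
    else 0, fun n hn => ?_, fun n hn => ?_⟩
  · simp [hn]
  · simp [hn]

/-- A local homeomorphism that maps `x` to `y` gives a homeomorphism. -/
theorem exists_homeomorph {φ ψ : OmegaStar → OmegaStar} (hφ : Continuous φ) (hψ : Continuous ψ)
    {x y : OmegaStar} (hxy : φ x = y) (hyx : ψ y = x) (h1 : ∀ᶠ z in 𝓝 x, ψ (φ z) = z)
    (h2 : ∀ᶠ w in 𝓝 y, φ (ψ w) = w) : ∃ h : OmegaStar ≃ₜ OmegaStar, h x = y := by
  have hev : {n : ℕ | Even n}.Infinite := by
    refine infinite_of_injective_forall_mem (f := fun n : ℕ => 2 * n) (fun a b h => ?_)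
      fun n => even_two_mul n
    exact Nat.eq_of_mul_eq_mul_left two_pos h
  have hod : {n : ℕ | Even n}ᶜ.Infinite := by
    refine infinite_of_injective_forall_mem (f := fun n : ℕ => 2 * n + 1) (fun a b h => ?_)
      fun n => ?_
    · simp only at h
      omega
    · show ¬ Even (2 * n + 1)
      simp
  have hne : ∀ z : OmegaStar, ∃ S : Set ℕ, S ∈ z.1 ∧ Sᶜ.Infinite := by
    intro z
    by_cases h : {n : ℕ | Even n} ∈ z.1
    · exact ⟨_, h, hod⟩
    · refine ⟨_, Ultrafilter.compl_mem_iff_notMem.2 h, ?_⟩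
      rwa [compl_compl]
  have hnb : ∀ (z : OmegaStar) (O : Set OmegaStar), O ∈ 𝓝 z →
      ∃ S : Set ℕ, S ∈ z.1 ∧ Sᶜ.Infinite ∧ star S ⊆ O := by
    intro z O hO
    obtain ⟨_, ⟨S, rfl⟩, hzS, hSO⟩ := basis_star.mem_nhds_iff.1 hO
    obtain ⟨T, hT, hTi⟩ := hne z
    refine ⟨S ∩ T, Filter.inter_mem hzS hT, hTi.mono (compl_subset_compl.2 inter_subset_right), ?_⟩
    exact fun w hw => hSO (Filter.mem_of_superset hw inter_subset_left)
  obtain ⟨B₀, hB₀, hB₀i, hB₀s⟩ := hnb y _ h2
  have h3 : φ ⁻¹' (star B₀) ∈ 𝓝 x :=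
    hφ.continuousAt (by rw [hxy]; exact (isOpen_star B₀).mem_nhds hB₀)
  obtain ⟨A, hA, hAi, hAs⟩ := hnb x _ (inter_mem h1 h3)
  obtain ⟨B, hB⟩ := exists_star_eq ((isOpen_star B₀).inter ((isOpen_star A).preimage hψ))
    ((isClosed_star B₀).inter ((isClosed_star A).preimage hψ))
  have hBi : Bᶜ.Infinite := by
    obtain ⟨z, hz⟩ := nonempty_star hB₀i
    refine infinite_of_mem (z := z) (Ultrafilter.compl_mem_iff_notMem.2 fun h => ?_)
    have h4 : z ∈ star B := h
    rw [← hB] at h4
    exact (Ultrafilter.compl_mem_iff_notMem.1 hz) h4.1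
  have hφA : ∀ z ∈ star A, φ z ∈ star B ∧ ψ (φ z) = z := by
    intro z hz
    have h4 := hAs hz
    have h5 : ψ (φ z) = z := h4.1
    refine ⟨?_, h5⟩
    rw [← hB]
    refine ⟨h4.2, ?_⟩
    show ψ (φ z) ∈ star A
    rw [h5]
    exact hz
  have hψB : ∀ w ∈ star B, ψ w ∈ star A ∧ φ (ψ w) = w := by
    intro w hw
    rw [← hB] at hw
    exact ⟨hw.2, hB₀s hw.1⟩
  obtain ⟨σ, τ, hσ, hτ⟩ := exists_equiv_on hAi hBi
  have hσi : InjOn σ Aᶜ := fun a ha b hb hab => by
    rw [← (hσ a ha).2, ← (hσ b hb).2, hab]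
  have hτi : InjOn τ Bᶜ := fun a ha b hb hab => by
    rw [← (hτ a ha).2, ← (hτ b hb).2, hab]
  have hinv : ∀ (φ ψ : OmegaStar → OmegaStar) (A B : Set ℕ) (σ τ : ℕ → ℕ) (hσi : InjOn σ Aᶜ)
      (hτi : InjOn τ Bᶜ) (_ : ∀ z ∈ star A, φ z ∈ star B ∧ ψ (φ z) = z)
      (_ : ∀ n ∈ Aᶜ, σ n ∈ Bᶜ ∧ τ (σ n) = n) (z : OmegaStar),
      glue ψ B τ hτi (glue φ A σ hσi z) = z := by
    intro φ ψ A B σ τ hσi hτi h4 h5 z
    by_cases hz : A ∈ z.1
    · rw [glue_of_mem hz, glue_of_mem (h4 z hz).1, (h4 z hz).2]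
    · have h6 : Aᶜ ∈ z.1 := Ultrafilter.compl_mem_iff_notMem.2 hz
      have h7 : Bᶜ ∈ (glue φ A σ hσi z).1 := by
        rw [glue_of_notMem hz]
        have h8 : σ ⁻¹' Bᶜ ∈ z.1 := Filter.mem_of_superset h6 fun n hn => (h5 n hn).1
        exact h8
      apply Subtype.ext
      rw [glue_of_notMem (Ultrafilter.compl_mem_iff_notMem.1 h7), glue_of_notMem hz]
      refine Ultrafilter.eq_of_le fun s hs => ?_
      have h8 : σ ⁻¹' (τ ⁻¹' s) ∈ z.1 := by
        refine Filter.mem_of_superset (Filter.inter_mem hs h6) ?_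
        rintro n ⟨hn1, hn2⟩
        show τ (σ n) ∈ s
        rwa [(h5 n hn2).2]
      exact h8
  refine ⟨{ toFun := glue φ A σ hσi
            invFun := glue ψ B τ hτi
            left_inv := hinv φ ψ A B σ τ hσi hτi hφA hσ
            right_inv := hinv ψ φ B A τ σ hτi hσi hψB hτ
            continuous_toFun := continuous_glue hφ A σ hσi
            continuous_invFun := continuous_glue hψ B τ hτi }, ?_⟩
  exact (glue_of_mem (φ := φ) (σ := σ) (hσ := hσi) hA).trans hxy

/-! ### The main argument -/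

/-- The space `C_k(ω*, ω*)`. -/
abbrev Z : Type := C(OmegaStar, OmegaStar)

/-- The constant map. -/
abbrev cst (x : OmegaStar) : Z := ContinuousMap.const OmegaStar x

theorem continuous_cst : Continuous cst := ContinuousMap.continuous_const'

theorem key {Φ : Z ≃ₜ Z} {x y : OmegaStar} (h : Φ (cst x) = cst y) (s : OmegaStar) :
    ∃ t : OmegaStar, ∀ᶠ z in 𝓝 x, Φ.symm (cst (Φ (cst z) t)) s = z := by
  -- the maps `z ↦ Φ (cst z) t` form a finite set near `x`
  have hc1 : Continuous fun p : OmegaStar × OmegaStar => Φ (cst p.1) p.2 := by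
    have h1 : Continuous fun p : OmegaStar × OmegaStar => Φ (cst p.1) :=
      Φ.continuous.comp (continuous_cst.comp continuous_fst)
    exact h1.eval continuous_snd
  obtain ⟨U, hU, hfin⟩ := exists_finite (f := fun z t => (Φ (cst z) t).1)
    (continuous_subtype_val.comp hc1) x y.1 (fun t => by rw [h]; rfl)
  let F : OmegaStar → (U → Bw) := fun t z => (Φ (cst z.1) t).1
  have hF : Continuous F := continuous_pi fun z =>
    continuous_subtype_val.comp (Φ (cst z.1)).continuous
  let ι := range F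
  have : Finite ι := hfin.to_subtype
  have : Nonempty ι := ⟨⟨F x, x, rfl⟩⟩
  let cl : OmegaStar → ι := fun t => ⟨F t, t, rfl⟩
  have hcl : ∀ t, ∀ᶠ t' in 𝓝 t, cl t' = cl t := by
    intro t
    have h1 : IsClosed (F ⁻¹' (range F \ {F t})) :=
      (hfin.subset sdiff_subset).isClosed.preimage hF
    filter_upwards [h1.isOpen_compl.mem_nhds fun h3 => h3.2 rfl] with t' ht'
    apply Subtype.ext
    by_contra hne
    exact ht' ⟨⟨_, rfl⟩, hne⟩
  have hcont : Continuous fun p : (ι → OmegaStar) × OmegaStar => p.1 (cl p.2) := by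
    rw [continuous_iff_continuousAt]
    rintro ⟨w, t⟩
    have h1 : ContinuousAt (fun p : (ι → OmegaStar) × OmegaStar => p.1 (cl t)) (w, t) :=
      ((continuous_apply (cl t)).comp continuous_fst).continuousAt
    refine h1.congr ?_
    have h2 := (continuous_snd (X := ι → OmegaStar) (Y := OmegaStar)).continuousAt
      (x := (w, t)) (hcl t)
    filter_upwards [h2] with p hp
    exact congrArg p.1 hp.symm
  let g : (ι → OmegaStar) → Z := fun w => ⟨fun t => w (cl t),
    hcont.comp (continuous_const.prodMk continuous_id)⟩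
  have hg : Continuous g := ContinuousMap.continuous_of_continuous_uncurry g hcont
  have hH : Continuous fun w : ι → OmegaStar => (Φ.symm (g w) s).1 :=
    continuous_subtype_val.comp ((Φ.symm.continuous.comp hg).eval continuous_const)
  obtain ⟨j, V, hV, hVj⟩ := n_factor hH (fun _ => y)
  -- representatives of the classes
  have hrep : ∀ i : ι, ∃ t, cl t = i := fun i => by
    obtain ⟨t, ht⟩ := i.2
    exact ⟨t, Subtype.ext ht⟩
  choose rep hrep using hrep
  let W : OmegaStar → (ι → OmegaStar) := fun z i => Φ (cst z) (rep i)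
  have hW : Continuous W := continuous_pi fun i =>
    hc1.comp (continuous_id.prodMk continuous_const)
  have hWx : W x = fun _ => y := by
    funext i
    show Φ (cst x) (rep i) = y
    rw [h]
    rfl
  have hgW : ∀ z ∈ U, g (W z) = Φ (cst z) := by
    intro z hz
    ext t : 1
    have h1 : cl (rep (cl t)) = cl t := hrep _
    have h2 := congrFun (congrArg Subtype.val h1) ⟨z, hz⟩
    exact Subtype.ext h2
  have hD : Continuous fun (z : OmegaStar) (_ : ι) => W z j :=
    continuous_pi fun _ => (continuous_apply j).comp hW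
  refine ⟨rep j, ?_⟩
  have h3 : ∀ᶠ z in 𝓝 x, W z ∈ V := hW.continuousAt (by rw [hWx]; exact hV)
  have h4 : ∀ᶠ z in 𝓝 x, (fun _ => W z j) ∈ V := hD.continuousAt (by
    have : (fun _ : ι => W x j) = fun _ => y := by rw [hWx]
    rw [this]
    exact hV)
  filter_upwards [hU, h3, h4] with z hz1 hz3 hz4
  have h5 : (Φ.symm (g (W z)) s).1 = (Φ.symm (g fun _ => W z j) s).1 :=
    hVj (W z) hz3 (fun _ => W z j) hz4 rfl
  rw [hgW z hz1, Φ.symm_apply_apply] at h5
  apply Subtype.ext
  exact h5.symm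

/-- The constant maps `f_x` and `f_y` lie in the same orbit of `C_k(ω*, ω*)` if and only if `x`
and `y` lie in the same orbit of `ω*`. -/
theorem result (x y : OmegaStar) :
    (∃ Φ : C(OmegaStar, OmegaStar) ≃ₜ C(OmegaStar, OmegaStar),
      Φ (ContinuousMap.const OmegaStar x) = ContinuousMap.const OmegaStar y) ↔
    ∃ h : OmegaStar ≃ₜ OmegaStar, h x = y := by
  constructor
  · rintro ⟨Φ, h⟩
    have h' : Φ.symm (cst y) = cst x := (Φ.symm_apply_eq).2 h.symm
    obtain ⟨t, ht⟩ := key h x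
    obtain ⟨s, hs⟩ := key h' t
    rw [Φ.symm_symm] at hs
    have hφ : Continuous fun z => Φ (cst z) t :=
      (Φ.continuous.comp continuous_cst).eval continuous_const
    have hψ : ∀ r, Continuous fun w => Φ.symm (cst w) r := fun r =>
      (Φ.symm.continuous.comp continuous_cst).eval continuous_const
    have hφx : Φ (cst x) t = y := by rw [h]; rfl
    have hψy : ∀ r, Φ.symm (cst y) r = x := fun r => by rw [h']; rfl
    refine exists_homeomorph hφ (hψ x) hφx (hψy x) ht ?_
    have h1 : ∀ᶠ w in 𝓝 y, Φ.symm (cst (Φ (cst (Φ.symm (cst w) s)) t)) x = Φ.symm (cst w) s :=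
      (hψ s).continuousAt (by rw [hψy s]; exact ht)
    filter_upwards [hs, h1] with w hw1 hw2
    rw [hw1] at hw2
    rw [hw2]
    exact hw1
  · rintro ⟨h, rfl⟩
    refine ⟨{ toFun := fun f => ContinuousMap.comp ⟨h, h.continuous⟩ f
              invFun := fun f => ContinuousMap.comp ⟨h.symm, h.symm.continuous⟩ f
              left_inv := fun f => by
                ext t : 1
                exact h.symm_apply_apply _
              right_inv := fun f => by
                ext t : 1
                exact h.apply_symm_apply _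
              continuous_toFun := ContinuousMap.continuous_postcomp _
              continuous_invFun := ContinuousMap.continuous_postcomp _ }, ?_⟩
    ext t : 1
    rfl

end Pool.Agent.Results.MP_975af5_gt.ConstantOrbits
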